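import Mathlib

set_option autoImplicit false

namespace Pool.Agent.Lib.Common.BorelDet

/-- A game tree with absorbing taboos: `lab q = some p` means that player `p` has lost. -/
structure Game where
  P : ℕ → Type
  par : ∀ n, P (n + 1) → P n
  root : P 0
  root_eq : ∀ q : P 0, q = root
  ch : ∀ n, P n → P (n + 1)
  par_ch : ∀ n q, par n (ch n q) = q
  lab : ∀ n, P n → Option Bool
  lab_mono : ∀ n q p, lab n (par n q) = some p → lab (n + 1) q = some p

/-- The player moving at level `n` (`false` is the first player). -/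
def mv (n : ℕ) : Bool := decide (n % 2 = 1)

@[ext] structure Strat (G : Game) where
  f : ∀ n, G.P n → G.P (n + 1)
  hf : ∀ n q, G.par n (f n q) = q

@[ext] structure Play (G : Game) where
  x : ∀ n, G.P n
  hx : ∀ n, G.par n (x (n + 1)) = x n

variable {G G' G'' : Game}

def Cons (p : Bool) (s : Strat G) (y : Play G) : Prop :=
  ∀ n, mv n = p → y.x (n + 1) = s.f n (y.x n)

def Agree (m : ℕ) (s s' : Strat G) : Prop := ∀ n < m, s.f n = s'.f n

theorem Agree.refl (m : ℕ) (s : Strat G) : Agree m s s := fun _ _ => rfl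

theorem Agree.symm {m : ℕ} {s s' : Strat G} (h : Agree m s s') : Agree m s' s :=
  fun n hn => (h n hn).symm

theorem Agree.trans {m : ℕ} {s s' s'' : Strat G} (h : Agree m s s') (h' : Agree m s' s'') :
    Agree m s s'' := fun n hn => (h n hn).trans (h' n hn)

theorem Agree.mono {m m' : ℕ} {s s' : Strat G} (h : Agree m s s') (hm : m' ≤ m) :
    Agree m' s s' := fun n hn => h n (by omega)

def dflt (G : Game) : Strat G := ⟨G.ch, G.par_ch⟩

theorem Play.agree_below (y y' : Play G) {m n : ℕ} (h : m ≤ n) (e : y.x n = y'.x n) :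
    y.x m = y'.x m := by
  induction n, h using Nat.le_induction with
  | base => exact e
  | succ n _ ih => exact ih (by rw [← y.hx n, ← y'.hx n, e])

theorem Play.lab_mono (y : Play G) {m n : ℕ} (h : m ≤ n) {p : Bool}
    (e : G.lab m (y.x m) = some p) : G.lab n (y.x n) = some p := by
  induction n, h using Nat.le_induction with
  | base => exact e
  | succ n _ ih => exact G.lab_mono n _ p (by rw [y.hx n]; exact ih)

open Classical in
/-- Modify a strategy so that it moves to `q`. -/
noncomputable def Strat.upd (s : Strat G) (n : ℕ) (q : G.P (n + 1)) : Strat G where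
  f := Function.update s.f n (fun r => if r = G.par n q then q else s.f n r)
  hf := by
    intro j r
    by_cases h : j = n
    · subst h
      rw [Function.update_self]
      split_ifs with e
      · exact e.symm
      · exact s.hf _ _
    · rw [Function.update_of_ne h]
      exact s.hf _ _

theorem Strat.upd_self (s : Strat G) (n : ℕ) (q : G.P (n + 1)) :
    (s.upd n q).f n (G.par n q) = q := by
  simp [Strat.upd]

theorem Strat.upd_ne (s : Strat G) (n : ℕ) (q : G.P (n + 1)) {j : ℕ} (h : j ≠ n) :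
    (s.upd n q).f j = s.f j := by
  simp [Strat.upd, Function.update_of_ne h]

theorem exists_play (n : ℕ) : ∀ (q : G.P n) (s : Strat G),
    ∃ y : Play G, y.x n = q ∧ ∀ j, n ≤ j → y.x (j + 1) = s.f j (y.x j) := by
  induction n with
  | zero =>
    intro q s
    exact ⟨⟨fun j => Nat.rec q (fun j r => s.f j r) j, fun j => s.hf _ _⟩, rfl, fun j _ => rfl⟩
  | succ n ih =>
    intro q s
    obtain ⟨y, h1, h2⟩ := ih (G.par n q) (s.upd n q)
    refine ⟨y, ?_, fun j hj => ?_⟩
    · rw [h2 n le_rfl, h1, s.upd_self]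
    · rw [h2 j (by omega), s.upd_ne n q (by omega)]

/-- A play through a given position. -/
noncomputable def thru {n : ℕ} (q : G.P n) : Play G := (exists_play n q (dflt G)).choose

theorem thru_self {n : ℕ} (q : G.P n) : (thru q).x n = q :=
  (exists_play n q (dflt G)).choose_spec.1

theorem thru_play (y : Play G) {m n : ℕ} (h : m ≤ n) : (thru (y.x n)).x m = y.x m :=
  Play.agree_below _ _ h (thru_self _)

/-- Unlabelled plays. -/
def Unl (y : Play G) : Prop := ∀ n, G.lab n (y.x n) = none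

/-- Player `p` wins the play `y` for the payoff set `S` of the first player. -/
def W (S : Set (Play G)) (p : Bool) (y : Play G) : Prop :=
  (∃ n, G.lab n (y.x n) = some (!p)) ∨ (Unl y ∧ (y ∈ S ↔ p = false))

theorem W_not {S : Set (Play G)} {p : Bool} {y : Play G} (h : ¬ W S p y) : W S (!p) y := by
  unfold W at *
  push Not at h
  by_cases hu : Unl y
  · right
    refine ⟨hu, ?_⟩
    have := h.2 hu
    cases p <;> simp at this ⊢ <;> tauto
  · left
    unfold Unl at hu
    push Not at hu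
    obtain ⟨n, hn⟩ := hu
    refine ⟨n, ?_⟩
    have := h.1 n
    rcases e : G.lab n (y.x n) with _ | r
    · exact absurd e hn
    · rw [e] at this
      cases p <;> cases r <;> simp at this ⊢

def WinFrom (S : Set (Play G)) (p : Bool) (n : ℕ) (q : G.P n) : Prop :=
  ∃ s : Strat G, ∀ y : Play G, y.x n = q →
    (∀ j, n ≤ j → mv j = p → y.x (j + 1) = s.f j (y.x j)) → W S p y

theorem win_ex {S : Set (Play G)} {p : Bool} {n : ℕ} (hm : mv n = p) (q : G.P (n + 1))
    (h : WinFrom S p (n + 1) q) : WinFrom S p n (G.par n q) := by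
  obtain ⟨s, hs⟩ := h
  refine ⟨s.upd n q, fun y h1 h2 => hs y ?_ fun j hj hp => ?_⟩
  · rw [h2 n le_rfl hm, h1, s.upd_self]
  · rw [h2 j (by omega) hp, s.upd_ne n q (by omega)]

theorem win_all {S : Set (Play G)} {p : Bool} {n : ℕ} (_hm : mv n ≠ p) (q : G.P n)
    (h : ∀ r, G.par n r = q → WinFrom S p (n + 1) r) : WinFrom S p n q := by
  classical
  have : ∀ r : G.P (n + 1), ∃ s : Strat G, G.par n r = q → ∀ y : Play G, y.x (n + 1) = r →
      (∀ j, n + 1 ≤ j → mv j = p → y.x (j + 1) = s.f j (y.x j)) → W S p y := by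
    intro r
    by_cases e : G.par n r = q
    · obtain ⟨s, hs⟩ := h r e
      exact ⟨s, fun _ => hs⟩
    · exact ⟨dflt G, fun e' => absurd e' e⟩
  choose s hs using this
  refine ⟨⟨fun j r => (s ((thru r).x (n + 1))).f j r, fun j r => (s _).hf _ _⟩,
    fun y h1 h2 => hs (y.x (n + 1)) (by rw [y.hx, h1]) y rfl fun j hj hp => ?_⟩
  rw [h2 j (by omega) hp]
  simp only [thru_play y hj]

theorem gale_stewart {S : Set (Play G)} {p : Bool} {n : ℕ} (q : G.P n)
    (H : ∀ y : Play G, y.x n = q → W S p y → ∃ j, n ≤ j ∧ WinFrom S p j (y.x j))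
    (h : ¬ WinFrom S p n q) : WinFrom S (!p) n q := by
  classical
  have : ∀ j (r : G.P j), ∃ r' : G.P (j + 1), G.par j r' = r ∧
      (mv j ≠ p → ¬ WinFrom S p j r → ¬ WinFrom S p (j + 1) r') := by
    intro j r
    by_cases e : mv j ≠ p ∧ ¬ WinFrom S p j r
    · by_contra hc
      push Not at hc
      exact e.2 (win_all e.1 r fun r' e' => (hc r' e').2.2)
    · exact ⟨G.ch j r, G.par_ch j r, fun a b => absurd ⟨a, b⟩ e⟩
  choose f hf1 hf2 using this
  refine ⟨⟨f, hf1⟩, fun y h1 h2 => W_not fun hw => ?_⟩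
  obtain ⟨j, hj, hw⟩ := H y h1 hw
  refine absurd hw ?_
  clear hw
  induction j, hj using Nat.le_induction with
  | base => rw [h1]; exact h
  | succ j hj ih =>
    by_cases e : mv j = p
    · intro hw
      have := win_ex e _ hw
      rw [y.hx] at this
      exact ih this
    · rw [h2 j hj (by revert e; cases p <;> cases mv j <;> simp)]
      exact hf2 j _ e ih

/-- `S` is decided at a fixed level, on unlabelled plays. -/
def Dec (S : Set (Play G)) : Prop :=
  ∃ (K : ℕ) (D : G.P K → Prop), ∀ y : Play G, Unl y → (y ∈ S ↔ D (y.x K))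

theorem Dec.det {S : Set (Play G)} (h : Dec S) : ∃ p, ∃ s : Strat G, ∀ y, Cons p s y → W S p y := by
  obtain ⟨K, D, hD⟩ := h
  have hK : ∀ q : G.P K, ∃ p, WinFrom S p K q := by
    intro q
    have : ∃ p, ∀ y : Play G, y.x K = q → W S p y → ∃ j, K ≤ j ∧ WinFrom S p j (y.x j) := by
      classical
      refine ⟨decide (D q), fun y h1 hw => ?_⟩
      rcases hw with ⟨n, hn⟩ | ⟨hu, hw⟩
      · refine ⟨max K n, le_max_left _ _, dflt G, fun y' e _ => Or.inl ⟨max K n, ?_⟩⟩
        rw [e]
        exact y.lab_mono (le_max_right _ _) hn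
      · rw [hD y hu, h1] at hw
        simp at hw
    obtain ⟨p, hp⟩ := this
    by_cases e : WinFrom S p K q
    · exact ⟨p, e⟩
    · exact ⟨!p, gale_stewart q hp e⟩
  have : ∀ d n, n + d = K → ∀ q : G.P n, ∃ p, WinFrom S p n q := by
    intro d
    induction d with
    | zero => intro n e; obtain rfl : n = K := e; exact hK
    | succ d ih =>
      intro n e q
      by_cases h : ∃ r, G.par n r = q ∧ WinFrom S (mv n) (n + 1) r
      · obtain ⟨r, rfl, hr⟩ := h
        exact ⟨mv n, win_ex rfl r hr⟩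
      · push Not at h
        refine ⟨!(mv n), win_all (by simp) q fun r hr => ?_⟩
        obtain ⟨p, hp⟩ := ih (n + 1) (by omega) r
        by_cases e' : p = mv n
        · exact absurd (e' ▸ hp) (h r hr)
        · have : p = !(mv n) := by revert e'; cases p <;> cases mv n <;> simp
          exact this ▸ hp
  obtain ⟨p, s, hs⟩ := this K 0 (by omega) G.root
  exact ⟨p, s, fun y hy => hs y (G.root_eq _) fun j _ hj => hy j hj⟩

structure Mor (G' G : Game) where
  pi : ∀ n, G'.P n → G.P n
  pi_par : ∀ n q, G.par n (pi (n + 1) q) = pi n (G'.par n q)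
  lab_none : ∀ n q, G'.lab n q = none → G.lab n (pi n q) = none

def Mor.id (G : Game) : Mor G G := ⟨fun _ q => q, fun _ _ => rfl, fun _ _ h => h⟩

def Mor.comp (g : Mor G' G) (f : Mor G'' G') : Mor G'' G :=
  ⟨fun n q => g.pi n (f.pi n q), fun n q => by rw [g.pi_par, f.pi_par],
    fun n q h => g.lab_none n _ (f.lab_none n q h)⟩

def Mor.play (f : Mor G' G) (y : Play G') : Play G :=
  ⟨fun n => f.pi n (y.x n), fun n => by rw [f.pi_par, y.hx]⟩

theorem Mor.unl (f : Mor G' G) {y : Play G'} (h : Unl y) : Unl (f.play y) :=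
  fun n => f.lab_none n _ (h n)

theorem Dec.pull {S : Set (Play G)} (h : Dec S) (f : Mor G' G) : Dec (f.play ⁻¹' S) := by
  obtain ⟨K, D, hD⟩ := h
  exact ⟨K, fun q => D (f.pi K q), fun y hy => hD _ (f.unl hy)⟩

theorem Dec.compl {S : Set (Play G)} (h : Dec S) : Dec Sᶜ := by
  obtain ⟨K, D, hD⟩ := h
  exact ⟨K, fun q => ¬ D q, fun y hy => by rw [Set.mem_compl_iff, hD y hy]⟩

/-- `S` is relatively open among the unlabelled plays. -/
def Opn (S : Set (Play G)) : Prop :=
  ∀ y ∈ S, Unl y → ∃ n, ∀ y' : Play G, Unl y' → y'.x n = y.x n → y' ∈ S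

theorem Opn.pull {S : Set (Play G)} (h : Opn S) (f : Mor G' G) : Opn (f.play ⁻¹' S) := by
  intro y hy hu
  obtain ⟨n, hn⟩ := h _ hy (f.unl hu)
  exact ⟨n, fun y' hu' e => hn _ (f.unl hu') (by simp [Mor.play, e])⟩

theorem Dec.opn {S : Set (Play G)} (h : Dec S) : Opn S := by
  obtain ⟨K, D, hD⟩ := h
  intro y hy hu
  exact ⟨K, fun y' hu' e => by rw [hD y' hu', e, ← hD y hu]; exact hy⟩

def Lift (f : Mor G' G) (p : Bool) (y : Play G') (x : Play G) : Prop :=
  ∀ n, G'.lab n (y.x n) ≠ some p → f.pi n (y.x n) = x.x n ∧ G'.lab n (y.x n) = G.lab n (x.x n)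

structure Cover (k : ℕ) (G' G : Game) extends Mor G' G where
  phi : Bool → Strat G' → Strat G
  lip : ∀ p m s s', Agree m s s' → Agree m (phi p s) (phi p s')
  lift : ∀ p s x, Cons p (phi p s) x → ∃ y, Cons p s y ∧ Lift toMor p y x
  bij : ∀ n ≤ k, Function.Bijective (pi n)
  lab_eq : ∀ n ≤ k, ∀ q, G.lab n (pi n q) = G'.lab n q
  trans : ∀ p s, ∀ n < k, ∀ q, (phi p s).f n (pi n q) = pi (n + 1) (s.f n q)

def Cover.comp {k : ℕ} (g : Cover k G' G) (f : Cover k G'' G') : Cover k G'' G where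
  toMor := g.toMor.comp f.toMor
  phi p s := g.phi p (f.phi p s)
  lip p m s s' h := g.lip p m _ _ (f.lip p m s s' h)
  lift p s x h := by
    obtain ⟨y, h1, h2⟩ := g.lift p _ x h
    obtain ⟨z, h3, h4⟩ := f.lift p s y h1
    refine ⟨z, h3, fun n hn => ?_⟩
    obtain ⟨a, b⟩ := h4 n hn
    obtain ⟨c, d⟩ := h2 n (b ▸ hn)
    exact ⟨by simp only [Mor.comp]; rw [a, c], b.trans d⟩
  bij n hn := (g.bij n hn).comp (f.bij n hn)
  lab_eq n hn q := by simp only [Mor.comp]; rw [g.lab_eq n hn, f.lab_eq n hn]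
  trans p s n hn q := by simp only [Mor.comp]; rw [g.trans p _ n hn, f.trans p s n hn]

def Cover.weaken {k k' : ℕ} (g : Cover k G' G) (h : k' ≤ k) : Cover k' G' G where
  toMor := g.toMor
  phi := g.phi
  lip := g.lip
  lift := g.lift
  bij n hn := g.bij n (by omega)
  lab_eq n hn := g.lab_eq n (by omega)
  trans p s n hn := g.trans p s n (by omega)

theorem Cover.win {k : ℕ} (g : Cover k G' G) {S : Set (Play G)} {p : Bool} {s : Strat G'}
    (h : ∀ y, Cons p s y → W (g.toMor.play ⁻¹' S) p y) (x : Play G) (hx : Cons p (g.phi p s) x) :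
    W S p x := by
  obtain ⟨y, h1, h2⟩ := g.lift p s x hx
  rcases h y h1 with ⟨n, hn⟩ | ⟨hu, hw⟩
  · left
    refine ⟨n, ?_⟩
    rw [← (h2 n (by rw [hn]; cases p <;> simp)).2, hn]
  · have e : g.toMor.play y = x := by
      ext n
      exact (h2 n (by rw [hu n]; simp)).1
    right
    rw [← e]
    exact ⟨g.toMor.unl hu, hw⟩

end Pool.Agent.Lib.Common.BorelDet
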