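import Pool.Agent.Lib.Common.BorelDet.Basic

set_option autoImplicit false

namespace Pool.Agent.Lib.Common.BorelDet

open Function

theorem thread_exists (i : ℕ) : ∀ (A : ℕ → Type) (π : ∀ j, A (j + 1) → A j),
    (∀ j, i ≤ j → Surjective (π j)) → ∀ q : A i,
      ∃ f : ∀ j, A j, (∀ j, π j (f (j + 1)) = f j) ∧ f i = q := by
  induction i with
  | zero =>
    intro A π h q
    exact ⟨fun j => Nat.rec q (fun j r => surjInv (h j (Nat.zero_le j)) r) j,
      fun j => surjInv_eq (h j (Nat.zero_le j)) _, rfl⟩
  | succ i ih =>
    intro A π h q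
    obtain ⟨f, h1, h2⟩ := ih (fun j => A (j + 1)) (fun j => π (j + 1))
      (fun j hj => h (j + 1) (by omega)) q
    refine ⟨fun j => Nat.casesOn j (π 0 (f 0)) f, fun j => ?_, h2⟩
    cases j with
    | zero => rfl
    | succ j => exact h1 j

theorem thread_inj {A : ℕ → Type} {π : ∀ j, A (j + 1) → A j} {i : ℕ}
    (h : ∀ j, i ≤ j → Injective (π j)) {f g : ∀ j, A j} (hf : ∀ j, π j (f (j + 1)) = f j)
    (hg : ∀ j, π j (g (j + 1)) = g j) (e : f i = g i) : f = g := by
  funext j
  rcases le_total i j with hj | hj
  · induction j, hj using Nat.le_induction with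
    | base => exact e
    | succ j hj ih => exact h j hj (by rw [hf, hg, ih])
  · induction i, hj using Nat.le_induction with
    | base => exact e
    | succ i _ ih =>
      have : ∀ i, j ≤ i → f i = g i → f j = g j := by
        intro i hi
        induction i, hi using Nat.le_induction with
        | base => exact id
        | succ i _ ih => exact fun e => ih (by rw [← hf, ← hg, e])
      exact this (i + 1) (by omega) e

section

variable {k : ℕ} {G : ℕ → Game} (C : ∀ i, Cover (k + i) (G (i + 1)) (G i))

/-- Threads of positions. -/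
def Thr (n : ℕ) : Type := {f : ∀ i, (G i).P n // ∀ i, (C i).pi n (f (i + 1)) = f i}

theorem thr_bij {n i : ℕ} (h : n ≤ k + i) : Bijective (fun f : Thr C n => f.1 i) := by
  constructor
  · intro f g e
    exact Subtype.ext (thread_inj (A := fun j => (G j).P n) (π := fun j => (C j).pi n)
      (fun j hj => ((C j).bij n (by omega)).1) f.2 g.2 e)
  · intro q
    obtain ⟨f, h1, h2⟩ := thread_exists i (fun j => (G j).P n) (fun j => (C j).pi n)
      (fun j hj => ((C j).bij n (by omega)).2) q
    exact ⟨⟨f, h1⟩, h2⟩

theorem thr_lab {n i j : ℕ} (h : n ≤ k + i) (hij : i ≤ j) (f : Thr C n) :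
    (G j).lab n (f.1 j) = (G i).lab n (f.1 i) := by
  induction j, hij using Nat.le_induction with
  | base => rfl
  | succ j hj ih => rw [← ih, ← f.2 j, (C j).lab_eq n (by omega)]

theorem thr_lab_none {n i j : ℕ} (hij : i ≤ j) (f : Thr C n)
    (h : (G j).lab n (f.1 j) = none) : (G i).lab n (f.1 i) = none := by
  induction j, hij using Nat.le_induction with
  | base => exact h
  | succ j hj ih => exact ih (by rw [← f.2 j]; exact (C j).lab_none n _ h)

def thrPar (n : ℕ) (f : Thr C (n + 1)) : Thr C n :=
  ⟨fun i => (G i).par n (f.1 i), fun i => by rw [← (C i).pi_par, f.2]⟩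

theorem thr_child (n : ℕ) (f : Thr C n) : ∃ g, thrPar C n g = f := by
  obtain ⟨g, hg⟩ := (thr_bij C (n := n + 1) (i := n + 1) (by omega)).2 ((G (n + 1)).ch n (f.1 _))
  refine ⟨g, (thr_bij C (n := n) (i := n + 1) (by omega)).1 ?_⟩
  simp only [thrPar] at hg ⊢
  rw [hg, Game.par_ch]

/-- The inverse limit game. -/
noncomputable def lim : Game where
  P := Thr C
  par := thrPar C
  root := ⟨fun i => (G i).root, fun i => (G i).root_eq _⟩
  root_eq q := Subtype.ext (funext fun i => (G i).root_eq _)
  ch n f := (thr_child C n f).choose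
  par_ch n f := (thr_child C n f).choose_spec
  lab n f := (G n).lab n (f.1 n)
  lab_mono n f p h := by
    rw [← thr_lab C (n := n) (i := n) (j := n + 1) (by omega) (by omega)] at h
    exact (G (n + 1)).lab_mono n _ p h

theorem lim_lab {n i : ℕ} (h : n ≤ k + i) (f : Thr C n) :
    (lim C).lab n f = (G i).lab n (f.1 i) := by
  change (G n).lab n (f.1 n) = _
  rcases le_total i n with hi | hi
  · exact thr_lab C h hi f
  · exact (thr_lab C (by omega) hi f).symm

def limMor (i : ℕ) : Mor (lim C) (G i) where
  pi _ f := f.1 i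
  pi_par _ _ := rfl
  lab_none n f h := by
    rw [lim_lab C (i := max i n) (by omega)] at h
    exact thr_lab_none C (le_max_left _ _) f h

theorem limMor_succ (i : ℕ) (y : Play (lim C)) :
    (C i).toMor.play ((limMor C (i + 1)).play y) = (limMor C i).play y := by
  ext n
  exact (y.x n).2 i

/-- Transport of a strategy to a finite stage. -/
noncomputable def tr (s : Strat (lim C)) (i : ℕ) : Strat (G i) where
  f n q := if h : n < k + i then
      (s.f n (surjInv (thr_bij C (n := n) (i := i) h.le).2 q)).1 i else (G i).ch n q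
  hf n q := by
    split_ifs with h
    · have := congrArg (fun f : Thr C n => f.1 i)
        (s.hf n (surjInv (thr_bij C (n := n) (i := i) h.le).2 q))
      exact this.trans (surjInv_eq (thr_bij C (n := n) (i := i) h.le).2 q)
    · exact (G i).par_ch n q

theorem tr_apply (s : Strat (lim C)) {i n : ℕ} (h : n < k + i) (f : Thr C n) :
    (tr C s i).f n (f.1 i) = (s.f n f).1 i := by
  simp only [tr, dif_pos h]
  exact congrArg (fun g : Thr C n => (s.f n g).1 i)
    (leftInverse_surjInv (thr_bij C (n := n) (i := i) h.le) f)

theorem tr_agree {m : ℕ} {s s' : Strat (lim C)} (h : Agree m s s') (i : ℕ) :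
    Agree m (tr C s i) (tr C s' i) := by
  intro n hn
  simp only [tr, h n hn]

noncomputable def down (p : Bool) (s : Strat (lim C)) : ℕ → ∀ i, Strat (G i)
  | 0, i => tr C s i
  | d + 1, i => (C i).phi p (down p s d (i + 1))

theorem down_succ (p : Bool) (s : Strat (lim C)) (d : ℕ) :
    ∀ i, Agree (k + i + d) (down C p s (d + 1) i) (down C p s d i) := by
  induction d with
  | zero =>
    intro i n hn
    funext q
    obtain ⟨f, rfl⟩ := (thr_bij C (n := n) (i := i) (by omega)).2 q
    simp only [down]
    rw [tr_apply C s (by omega), ← f.2 i, (C i).trans p _ n (by omega),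
      tr_apply C s (by omega), (s.f n f).2 i]
  | succ d ih =>
    intro i
    exact (C i).lip p _ _ _ ((ih (i + 1)).mono (by omega))

theorem down_le (p : Bool) (s : Strat (lim C)) (i : ℕ) {d d' : ℕ} (h : d ≤ d') :
    Agree (k + i + d) (down C p s d' i) (down C p s d i) := by
  induction d', h using Nat.le_induction with
  | base => exact Agree.refl _ _
  | succ d' h ih => exact ((down_succ C p s d' i).mono (by omega)).trans ih

theorem down_agree (p : Bool) {m : ℕ} {s s' : Strat (lim C)} (h : Agree m s s') (d : ℕ) :
    ∀ i, Agree m (down C p s d i) (down C p s' d i) := by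
  induction d with
  | zero => exact tr_agree C h
  | succ d ih => exact fun i => (C i).lip p _ _ _ (ih (i + 1))

noncomputable def st (p : Bool) (s : Strat (lim C)) (i : ℕ) : Strat (G i) where
  f n := (down C p s (n + 1) i).f n
  hf n := (down C p s (n + 1) i).hf n

theorem st_agree (p : Bool) (s : Strat (lim C)) (i d : ℕ) :
    Agree d (st C p s i) (down C p s d i) := fun n hn =>
  (down_le C p s i (d := n + 1) (d' := d) hn n (by omega)).symm

theorem st_succ (p : Bool) (s : Strat (lim C)) (i : ℕ) :
    (C i).phi p (st C p s (i + 1)) = st C p s i := by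
  ext n : 2
  rw [(C i).lip p _ _ _ (st_agree C p s (i + 1) (n + 1)) n (by omega),
    st_agree C p s i (n + 2) n (by omega)]
  rfl

theorem st_apply (p : Bool) (s : Strat (lim C)) {i n : ℕ} (h : n < k + i) (f : Thr C n) :
    (st C p s i).f n (f.1 i) = (s.f n f).1 i := by
  rw [← tr_apply C s h]
  exact congrFun (down_le C p s i (d := 0) (d' := n + 1) (by omega) n (by omega)) _

theorem lim_lift (p : Bool) (s : Strat (lim C)) (x : Play (G 0)) (hx : Cons p (st C p s 0) x) :
    ∃ y, Cons p s y ∧ Lift (limMor C 0) p y x := by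
  classical
  have step : ∀ i (z : {z : Play (G i) // Cons p (st C p s i) z}),
      ∃ z' : {z : Play (G (i + 1)) // Cons p (st C p s (i + 1)) z},
        Lift (C i).toMor p z'.1 z.1 := by
    intro i z
    obtain ⟨y, h1, h2⟩ := (C i).lift p (st C p s (i + 1)) z.1 (by rw [st_succ]; exact z.2)
    exact ⟨⟨y, h1⟩, h2⟩
  choose F hF using step
  let X : ∀ i, {z : Play (G i) // Cons p (st C p s i) z} :=
    fun i => Nat.rec ⟨x, hx⟩ (fun i z => F i z) i
  have hX : ∀ i, Lift (C i).toMor p (X (i + 1)).1 (X i).1 := fun i => hF i (X i)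
  have hX0 : (X 0).1 = x := rfl
  -- good levels
  let good : ℕ → Prop := fun n => ∀ i, (G i).lab n ((X i).1.x n) ≠ some p
  let th : ∀ n, good n → Thr C n := fun n h =>
    ⟨fun i => (X i).1.x n, fun i => (hX i n (h (i + 1))).1⟩
  have hlab : ∀ n, good n → ∀ i, (G i).lab n ((X i).1.x n) = (G 0).lab n (x.x n) := by
    intro n h i
    induction i with
    | zero => rfl
    | succ i ih => rw [← ih]; exact (hX i n (h (i + 1))).2
  by_cases hg : ∀ n, good n
  · refine ⟨⟨fun n => th n (hg n), fun n => Subtype.ext (funext fun i => (X i).1.hx n)⟩,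
      fun n hn => ?_, fun n _ => ⟨rfl, hlab n (hg n) n⟩⟩
    apply (thr_bij C (n := n + 1) (i := n + 1) (by omega)).1
    simp only
    rw [← st_apply C p s (by omega)]
    exact (X (n + 1)).2 n hn
  · push Not at hg
    let m := Nat.find hg
    have hm : ¬ good m := Nat.find_spec hg
    have hm' : ∀ n < m, good n := fun n hn => by
      have := Nat.find_min hg hn
      exact not_not.1 this
    simp only [good] at hm
    push Not at hm
    obtain ⟨i0, hi0⟩ := hm
    have hi : ∀ i, i0 ≤ i → (G i).lab m ((X i).1.x m) = some p := by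
      intro i h
      induction i, h using Nat.le_induction with
      | base => exact hi0
      | succ i _ ih =>
        by_contra hc
        exact hc ((hX i m hc).2.trans ih)
    let i := max i0 m
    have hmi : m ≤ i := le_max_right _ _
    obtain ⟨g, hg'⟩ := (thr_bij C (n := m) (i := i) (by omega)).2 ((X i).1.x m)
    obtain ⟨y, h1, h2⟩ := exists_play (G := lim C) m g s
    have hy : ∀ j ≤ m, (y.x j).1 i = (X i).1.x j := by
      intro j hj
      refine Play.agree_below ((limMor C i).play y) (X i).1 hj ?_
      change (y.x m).1 i = _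
      rw [h1]
      exact hg'
    refine ⟨y, fun n hn => ?_, fun n hn => ?_⟩
    · rcases le_or_gt m n with h | h
      · exact h2 n h
      · apply (thr_bij C (n := n + 1) (i := i) (by omega)).1
        simp only
        rw [← st_apply C p s (by omega), hy (n + 1) h, hy n h.le]
        exact (X i).2 n hn
    · have hnm : n < m := by
        by_contra hc
        apply hn
        refine y.lab_mono (not_lt.1 hc) ?_
        rw [lim_lab C (i := i) (by omega), hy m le_rfl]
        exact hi i (le_max_left _ _)
      have : y.x n = th n (hm' n hnm) :=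
        (thr_bij C (n := n) (i := i) (by omega)).1 (hy n hnm.le)
      rw [this]
      exact ⟨rfl, hlab n (hm' n hnm) n⟩

/-- The limit covering. -/
noncomputable def limCover : Cover k (lim C) (G 0) where
  toMor := limMor C 0
  phi p s := st C p s 0
  lip p _ _ _ h n hn := down_agree C p h (n + 1) 0 n hn
  lift := lim_lift C
  bij _ hn := thr_bij C (by omega)
  lab_eq _ hn f := (lim_lab C (by omega) f).symm
  trans p s _ hn f := st_apply C p s (by omega) f

end

end Pool.Agent.Lib.Common.BorelDet
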