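import Pool.Agent.Lib.Common.BorelDet.Basic

set_option autoImplicit false

namespace Pool.Agent.Lib.Common.BorelDet

open Classical Function

abbrev Node (G : Game) : Type := Σ n, G.P n

section

variable {G : Game} (S : Set (Play G)) (K : ℕ)

def Z (r : Node G) : Prop :=
  K + 2 ≤ r.1 ∧ G.lab r.1 r.2 = none ∧ ∀ y : Play G, Unl y → y.x r.1 = r.2 → y ∈ S

def Compat (n : ℕ) (q : G.P n) (r : Node G) : Prop := ∃ y : Play G, y.x n = q ∧ y.x r.1 = r.2

@[ext] structure UP (n : ℕ) where
  q : G.P n
  X : Set (Node G)
  o : Option (Node G)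
  hX : n ≤ K → X = ∅
  ho : n ≤ K + 1 → o = none
  hr : ∀ r, o = some r → r ∈ X ∧ Z S K r ∧ Compat n q r

noncomputable def accLab (X : Set (Node G)) : ∀ n, G.P n → Option Bool
  | 0, q => G.lab 0 q
  | n + 1, q => (accLab X n (G.par n q)).or ((G.lab (n + 1) q).or
      (if Z S K ⟨n + 1, q⟩ then some (decide (⟨n + 1, q⟩ ∈ X)) else none))

theorem accLab_low (X : Set (Node G)) : ∀ n ≤ K + 1, ∀ q, accLab S K X n q = G.lab n q := by
  intro n
  induction n with
  | zero => intro _ _; rfl
  | succ n ih =>
    intro hn q
    have : ¬ Z S K ⟨n + 1, q⟩ := fun h => by have := h.1; simp at this; omega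
    rw [accLab, ih (by omega), if_neg this]
    rcases e : G.lab n (G.par n q) with _ | r
    · simp
    · simp [G.lab_mono n q r e]

theorem accLab_none (X : Set (Node G)) (n : ℕ) (q : G.P n) (h : accLab S K X n q = none) :
    G.lab n q = none ∧ ¬ Z S K ⟨n, q⟩ := by
  cases n with
  | zero => exact ⟨h, fun h => by have := h.1; simp at this⟩
  | succ n =>
    rw [accLab] at h
    simp only [Option.or_eq_none_iff] at h
    refine ⟨h.2.1, fun hz => ?_⟩
    simpa [hz] using h.2.2

noncomputable def upPar (n : ℕ) (t : UP S K (n + 1)) : UP S K n where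
  q := G.par n t.q
  X := if n ≤ K then ∅ else t.X
  o := if n ≤ K + 1 then none else t.o
  hX h := if_pos h
  ho h := if_pos h
  hr r h := by
    split_ifs at h with h1
    obtain ⟨a, b, y, c, d⟩ := t.hr r h
    rw [if_neg (by omega)]
    exact ⟨a, b, y, by rw [← c, y.hx], d⟩

noncomputable def mk1 (n : ℕ) (q : G.P n) (X : Set (Node G)) : UP S K n where
  q := q
  X := if n ≤ K then ∅ else X
  o := none
  hX h := if_pos h
  ho _ := rfl
  hr _ h := by simp at h

noncomputable def mk2 (n : ℕ) (q : G.P n) (X : Set (Node G)) (r : Node G) : UP S K n :=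
  if h : K + 2 ≤ n ∧ r ∈ X ∧ Z S K r ∧ Compat n q r then
    ⟨q, X, some r, fun _ => by omega, fun _ => by omega, fun r' e => by
      obtain rfl : r = r' := by simpa using e
      exact h.2⟩
  else mk1 S K n q X

theorem mk2_q (n : ℕ) (q : G.P n) (X : Set (Node G)) (r : Node G) : (mk2 S K n q X r).q = q := by
  unfold mk2
  split_ifs <;> rfl

theorem up_child (n : ℕ) (t : UP S K n) : ∃ u, upPar S K n u = t := by
  rcases e : t.o with _ | r
  · refine ⟨mk1 S K (n + 1) (G.ch n t.q) t.X, ?_⟩
    ext1
    · exact G.par_ch _ _
    · simp only [upPar, mk1]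
      split_ifs with h1 h2
      · exact (t.hX h1).symm
      · omega
      · rfl
    · simp [upPar, mk1, e]
  · obtain ⟨a, b, y, c, d⟩ := t.hr r e
    have hn : ¬ n ≤ K + 1 := fun h => by simp [t.ho h] at e
    refine ⟨⟨y.x (n + 1), t.X, some r, fun _ => by omega, fun _ => by omega, fun r' e' => ?_⟩, ?_⟩
    · obtain rfl : r = r' := by simpa using e'
      exact ⟨a, b, y, rfl, d⟩
    · ext1
      · simp only [upPar]; rw [y.hx, c]
      · simp only [upPar]; rw [if_neg (by omega)]
      · simp only [upPar]; rw [if_neg hn, e]

theorem up_low {n : ℕ} (h : n ≤ K) (t : UP S K n) (X : Set (Node G)) :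
    mk1 S K n t.q X = t := by
  ext1
  · rfl
  · simp [mk1, h, t.hX h]
  · exact (t.ho (by omega)).symm

/-- The unravelled game. -/
noncomputable def unr : Game where
  P := UP S K
  par := upPar S K
  root := mk1 S K 0 G.root ∅
  root_eq t := by rw [← up_low S K (Nat.zero_le K) t ∅, G.root_eq t.q]
  ch n t := (up_child S K n t).choose
  par_ch n t := (up_child S K n t).choose_spec
  lab n t := if t.o = none then accLab S K t.X n t.q else G.lab n t.q
  lab_mono n t p h := by
    simp only [upPar] at h
    by_cases hn : n ≤ K + 1
    · simp only [hn, if_true, accLab_low S K _ n hn] at h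
      split_ifs
      · rw [accLab, accLab_low S K _ n hn, h]; rfl
      · exact G.lab_mono n _ p h
    · have hn' : ¬ n ≤ K := by omega
      simp only [hn, hn', if_false] at h
      split_ifs at h ⊢
      · rw [accLab, h]; rfl
      · exact G.lab_mono n _ p h

def unrMor : Mor (unr S K) G where
  pi _ t := t.q
  pi_par _ _ := rfl
  lab_none n t h := by
    simp only [unr] at h
    split_ifs at h
    · exact (accLab_none S K _ n _ h).1
    · exact h

theorem play_o (y : Play (unr S K)) {n : ℕ} (h : K + 2 ≤ n) :
    (y.x n).o = (y.x (K + 2)).o := by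
  induction n, h using Nat.le_induction with
  | base => rfl
  | succ n h ih =>
    rw [← ih, ← y.hx n]
    simp only [unr, upPar]
    rw [if_neg (by omega)]

theorem unr_dec (hS : Opn S) : Dec ((unrMor S K).play ⁻¹' S) := by
  refine ⟨K + 2, fun t => t.o ≠ none, fun y hy => ?_⟩
  have hu := (unrMor S K).unl hy
  constructor
  · intro h e
    obtain ⟨n, hn⟩ := hS _ h hu
    have h1 := hy (max n (K + 2))
    simp only [unr] at h1
    rw [if_pos (by rw [play_o S K y (le_max_right _ _)]; exact e)] at h1
    refine (accLab_none S K _ _ _ h1).2 ⟨le_max_right _ _, hu _, fun y' hy' e' => hn y' hy' ?_⟩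
    exact Play.agree_below y' ((unrMor S K).play y) (le_max_left n (K + 2)) e'
  · intro h
    obtain ⟨r, hr⟩ := Option.ne_none_iff_exists'.1 h
    have hz := ((y.x (K + 2)).hr r hr).2.1
    obtain ⟨-, -, y', c, d⟩ := (y.x r.1).hr r (by rw [play_o S K y hz.1]; exact hr)
    exact hz.2.2 _ hu (c.symm.trans d)

def Trig (p : Bool) (X : Set (Node G)) (n : ℕ) (q : G.P (n + 1)) : Prop :=
  accLab S K X n (G.par n q) = none ∧ Z S K ⟨n + 1, q⟩ ∧ decide (⟨n + 1, q⟩ ∈ X) ≠ p

noncomputable def initX (p : Bool) (s : Strat (unr S K)) (n : ℕ) (q : G.P (n + 1)) :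
    Set (Node G) :=
  if p = false then (s.f n (mk1 S K n (G.par n q) ∅)).X
  else {r | Z S K r ∧ ∀ X, (s.f (n + 1) (mk1 S K (n + 1) q X)).o ≠ some r}

noncomputable def initC (p : Bool) (s : Strat (unr S K)) (n : ℕ) (q : G.P (n + 1)) (r : Node G) :
    Set (Node G) :=
  if p = false then (s.f n (mk1 S K n (G.par n q) ∅)).X
  else epsilon fun X => (s.f (n + 1) (mk1 S K (n + 1) q X)).o = some r

noncomputable def St (p : Bool) (s : Strat (unr S K)) :
    ∀ n, G.P n → Set (Node G) × (Node G → Set (Node G)) × Option (Node G)
  | 0, _ => (∅, fun _ => ∅, none)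
  | n + 1, q =>
    if n = K then (initX S K p s n q, initC S K p s n q, none)
    else if (St p s n (G.par n q)).2.2 = none ∧ Trig S K p (St p s n (G.par n q)).1 n q then
      ((St p s n (G.par n q)).1, (St p s n (G.par n q)).2.1, some ⟨n + 1, q⟩)
    else St p s n (G.par n q)

noncomputable def lft (n : ℕ) (q : G.P n)
    (a : Set (Node G) × (Node G → Set (Node G)) × Option (Node G)) : UP S K n :=
  match a.2.2 with
  | none => mk1 S K n q a.1
  | some r => mk2 S K n q (a.2.1 r) r

theorem lft_q (n : ℕ) (q : G.P n) (a) : (lft S K n q a).q = q := by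
  unfold lft
  split
  · rfl
  · exact mk2_q _ _ _ _ _ _

noncomputable def phi (p : Bool) (s : Strat (unr S K)) : Strat G where
  f n q := (s.f n (lft S K n q (St S K p s n q))).q
  hf n q := by
    have := congrArg UP.q (s.hf n (lft S K n q (St S K p s n q)))
    rw [lft_q] at this
    exact this

theorem St_agree (p : Bool) {m : ℕ} {s s' : Strat (unr S K)} (h : Agree m s s') :
    ∀ n < m, St S K p s n = St S K p s' n := by
  intro n
  induction n with
  | zero => intro _; rfl
  | succ n ih =>
    intro hn
    funext q
    have e1 : initX S K p s n q = initX S K p s' n q := by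
      simp only [initX, h n (by omega), h (n + 1) hn]
    have e2 : initC S K p s n q = initC S K p s' n q := by
      funext r
      simp only [initC, h n (by omega), h (n + 1) hn]
    simp only [St, ih (by omega), e1, e2]

theorem St_low (p : Bool) (s : Strat (unr S K)) :
    ∀ n ≤ K + 1, ∀ q, (St S K p s n q).2.2 = none := by
  intro n
  induction n with
  | zero => intro _ _; rfl
  | succ n ih =>
    intro hn q
    rw [St]
    split_ifs with h1 h2
    · rfl
    · have := h2.2.2.1.1
      simp at this
      omega
    · exact ih (by omega) _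

theorem lft_low (p : Bool) (s : Strat (unr S K)) {n : ℕ} (h : n ≤ K) (q : G.P n)
    (X : Set (Node G)) : lft S K n q (St S K p s n q) = mk1 S K n q X := by
  unfold lft
  rw [St_low S K p s n (by omega)]
  simp only [mk1, h, if_true]

theorem child_X {n : ℕ} (h : K < n) (u : UP S K (n + 1)) : u.X = (upPar S K n u).X := by
  simp only [upPar]; rw [if_neg (by omega)]

theorem child_o {n : ℕ} (h : K + 1 < n) (u : UP S K (n + 1)) : u.o = (upPar S K n u).o := by
  simp only [upPar]; rw [if_neg (by omega)]

theorem phi_lift (hK : mv K = false) (p : Bool) (s : Strat (unr S K)) (x : Play G)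
    (hx : Cons p (phi S K p s) x) : ∃ y, Cons p s y ∧ Lift (unrMor S K) p y x := by
  set X := initX S K p s K (x.x (K + 1)) with hXdef
  set c := initC S K p s K (x.x (K + 1)) with hcdef
  have hK1 : mv (K + 1) = true := by
    simp only [mv, decide_eq_false_iff_not, decide_eq_true_eq] at hK ⊢; omega
  have hst : ∀ n, K + 1 ≤ n → (St S K p s n (x.x n)).1 = X ∧ (St S K p s n (x.x n)).2.1 = c := by
    intro n hn
    induction n, hn using Nat.le_induction with
    | base => rw [St, if_pos rfl]; exact ⟨rfl, rfl⟩
    | succ n hn ih =>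
      rw [St, if_neg (by omega), x.hx]
      split_ifs
      · exact ih
      · exact ih
  have hnone : ∀ n, (∀ j < n, ¬ Trig S K p X j (x.x (j + 1))) →
      (St S K p s n (x.x n)).2.2 = none := by
    intro n
    induction n with
    | zero => intro _; rfl
    | succ n ih =>
      intro h
      by_cases hn : n + 1 ≤ K + 1
      · exact St_low S K p s _ hn _
      · rw [St, if_neg (by omega), x.hx, (hst n (by omega)).1,
          if_neg (fun h' => h n (by omega) h'.2)]
        exact ih fun j hj => h j (by omega)
  have hq : ∀ n, mv n = p → ∀ t, lft S K n (x.x n) (St S K p s n (x.x n)) = t →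
      (s.f n t).q = x.x (n + 1) := by
    intro n hn t ht
    rw [hx n hn, ← ht]
    rfl
  have hpar : ∀ n t, upPar S K n (s.f n t) = t := s.hf
  -- the first `K + 1` moves
  have hlow : ∀ (X' : Set (Node G)), (p = false → X' = X) → ∀ n ≤ K, mv n = p →
      mk1 S K (n + 1) (x.x (n + 1)) X' = s.f n (mk1 S K n (x.x n) X') := by
    intro X' hX' n hn hp
    ext1
    · exact (hq n hp _ (lft_low S K p s hn _ _)).symm
    · rcases hn.lt_or_eq with h | rfl
      · rw [(s.f n _).hX h, (mk1 S K (n + 1) _ _).hX h]
      · have hp' : p = false := hp ▸ hK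
        simp only [mk1]
        rw [if_neg (by omega), hX' hp', hXdef, initX, if_pos hp', x.hx]
        simp only [mk1, le_refl, if_true]
    · exact ((s.f n _).ho (by omega)).symm
  by_cases hA : ∀ j, ¬ Trig S K p X j (x.x (j + 1))
  · have hl : ∀ n, lft S K n (x.x n) (St S K p s n (x.x n)) = mk1 S K n (x.x n) X := by
      intro n
      rcases le_or_gt n K with h | h
      · exact lft_low S K p s h _ _
      · unfold lft
        rw [hnone n fun j _ => hA j]
        simp only
        rw [(hst n h).1]
    refine ⟨⟨fun n => mk1 S K n (x.x n) X, fun n => ?_⟩, fun n hn => ?_, fun n hn => ⟨rfl, ?_⟩⟩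
    · change upPar S K n _ = _
      ext1
      · exact x.hx n
      · simp only [upPar, mk1]
        split_ifs
        · rfl
        · omega
        · rfl
      · simp [upPar, mk1]
    · change mk1 S K (n + 1) _ _ = s.f n (mk1 S K n _ _)
      rcases le_or_gt n K with h | h
      · exact hlow X (fun _ => rfl) n h hn
      · ext1
        · exact (hq n hn _ (hl n)).symm
        · rw [child_X S K h (s.f n _), hpar]
          simp only [mk1]
          rw [if_neg (by omega), if_neg (by omega)]
        · rcases (Nat.succ_le_of_lt h).lt_or_eq with h' | rfl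
          · rw [child_o S K h' (s.f n _), hpar]; rfl
          · have hp : p = true := hn ▸ hK1
            change none = _
            rcases e : (s.f (K + 1) (mk1 S K (K + 1) (x.x (K + 1)) X)).o with _ | r
            · rfl
            · exfalso
              have h1 := ((s.f (K + 1) _).hr r e).1
              rw [child_X S K h (s.f _ _), hpar] at h1
              simp only [mk1] at h1
              rw [if_neg (by omega), hXdef, initX, if_neg (by simp [hp])] at h1
              exact h1.2 _ e
    · have key : ∀ n, accLab S K X n (x.x n) ≠ some p → accLab S K X n (x.x n) = G.lab n (x.x n) := by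
        intro n
        induction n with
        | zero => intro _; rfl
        | succ n ih =>
          intro h
          rw [accLab, x.hx] at h ⊢
          rcases e : accLab S K X n (x.x n) with _ | r
          · rw [e] at h
            rcases e' : G.lab (n + 1) (x.x (n + 1)) with _ | r
            · rw [e'] at h
              split_ifs at h ⊢ with hz
              · exfalso
                refine hA n ⟨by rw [x.hx]; exact e, hz, ?_⟩
                simpa using h
              · rfl
            · rfl
          · rw [e] at h ih
            have := ih (by simpa using h)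
            rw [x.lab_mono (Nat.le_succ n) this.symm]
            rfl
      simp only [unr, mk1, if_true] at hn ⊢
      rcases le_or_gt n K with h | h
      · exact accLab_low S K _ n (by omega) _
      · rw [if_neg (by omega)] at hn ⊢
        exact key n hn
  · push Not at hA
    let m := Nat.find hA
    have hm : Trig S K p X m (x.x (m + 1)) := Nat.find_spec hA
    have hm' : ∀ j < m, ¬ Trig S K p X j (x.x (j + 1)) := fun j hj => Nat.find_min hA hj
    let r : Node G := ⟨m + 1, x.x (m + 1)⟩
    have hz : Z S K r := hm.2.1
    have hKm : K + 2 ≤ m + 1 := hz.1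
    have hsome : ∀ n, m + 1 ≤ n → (St S K p s n (x.x n)).2.2 = some r := by
      intro n hn
      induction n, hn using Nat.le_induction with
      | base =>
        rw [St, if_neg (by omega), x.hx, (hst m (by omega)).1, if_pos ⟨hnone m hm', hm⟩]
      | succ n hn ih =>
        rw [St, if_neg (by omega), x.hx, if_neg (by rw [ih]; simp)]
        exact ih
    have hcI : p = false → c r = X := fun hp => by
      rw [hcdef, hXdef, initC, initX, if_pos hp, if_pos hp]
    have hcII : p = true → (s.f (K + 1) (mk1 S K (K + 1) (x.x (K + 1)) (c r))).o = some r := by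
      intro hp
      have h1 : r ∉ X := by simpa [hp] using hm.2.2
      rw [hXdef, initX, if_neg (by simp [hp])] at h1
      simp only [Set.mem_ofPred_eq, not_and, not_forall, not_not] at h1
      rw [hcdef, initC, if_neg (by simp [hp])]
      exact epsilon_spec (h1 hz)
    have hrc : r ∈ c r := by
      cases p with
      | false => rw [hcI rfl]; simpa using hm.2.2
      | true =>
        have h1 := ((s.f (K + 1) _).hr r (hcII rfl)).1
        rw [child_X S K (Nat.lt_succ_self K) (s.f _ _), hpar] at h1
        simp only [mk1] at h1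
        rwa [if_neg (by omega)] at h1
    have hy1 : ∀ n ≤ K + 1, mk2 S K n (x.x n) (c r) r = mk1 S K n (x.x n) (c r) := fun n hn => by
      rw [mk2, dif_neg (fun h => by omega)]
    have hy2 : ∀ n, K + 2 ≤ n → (mk2 S K n (x.x n) (c r) r).X = c r ∧
        (mk2 S K n (x.x n) (c r) r).o = some r := fun n hn => by
      rw [mk2, dif_pos ⟨hn, hrc, hz, x, rfl, rfl⟩]
      exact ⟨rfl, rfl⟩
    have hyX : ∀ n, K + 1 ≤ n → (mk2 S K n (x.x n) (c r) r).X = c r := fun n hn => by
      rcases hn.lt_or_eq with h | rfl
      · exact (hy2 n h).1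
      · rw [hy1 _ le_rfl]; simp [mk1]
    have forced : ∀ n ≤ m, ∀ u : UP S K (n + 1), u.o = some r → u.q = x.x (n + 1) := by
      intro n hn u hu
      obtain ⟨-, -, y', c, d⟩ := u.hr r hu
      rw [← c]
      exact Play.agree_below y' x (m := n + 1) (n := m + 1) (by omega) d
    refine ⟨⟨fun n => mk2 S K n (x.x n) (c r) r, fun n => ?_⟩, fun n hn => ?_,
      fun n hn => ⟨mk2_q _ _ _ _ _ _, ?_⟩⟩
    · change upPar S K n _ = _
      ext1
      · simp only [upPar, mk2_q]; exact x.hx n
      · simp only [upPar]
        split_ifs with h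
        · exact ((mk2 S K n _ _ _).hX h).symm
        · rw [hyX n (by omega), hyX (n + 1) (by omega)]
      · simp only [upPar]
        split_ifs with h
        · exact ((mk2 S K n _ _ _).ho h).symm
        · rw [(hy2 n (by omega)).2, (hy2 (n + 1) (by omega)).2]
    · change mk2 S K (n + 1) _ _ _ = s.f n (mk2 S K n _ _ _)
      rcases le_or_gt n K with h | h
      · rw [hy1 _ (by omega), hy1 _ (by omega)]
        exact hlow (c r) hcI n h hn
      · have ho : (s.f n (mk2 S K n (x.x n) (c r) r)).o = some r := by
          rcases (Nat.succ_le_of_lt h).lt_or_eq with h' | rfl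
          · rw [child_o S K h' (s.f n _), hpar, (hy2 n h').2]
          · rw [hy1 _ le_rfl]
            exact hcII (hn ▸ hK1)
        ext1
        · rw [mk2_q]
          rcases le_or_gt n m with h' | h'
          · exact (forced n h' _ ho).symm
          · refine (hq n hn _ ?_).symm
            unfold lft
            rw [hsome n h']
            simp only
            rw [(hst n h).2]
        · rw [child_X S K h (s.f n _), hpar, hyX n h, hyX (n + 1) (by omega)]
        · rw [ho, (hy2 (n + 1) (by omega)).2]
    · simp only [unr, mk2_q]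
      split_ifs with h
      · refine accLab_low S K _ n ?_ _
        by_contra hc
        rw [(hy2 n (by omega)).2] at h
        simp at h
      · rfl

/-- The unravelling covering. -/
noncomputable def unrCover (hK : mv K = false) : Cover K (unr S K) G where
  toMor := unrMor S K
  phi := phi S K
  lip p m s s' h n hn := by
    funext q
    simp only [phi, St_agree S K p h n hn, h n hn]
  lift := phi_lift S K hK
  bij n hn := by
    refine ⟨fun t t' e => ?_, fun q => ⟨mk1 S K n q ∅, rfl⟩⟩
    rw [← up_low S K hn t ∅, ← up_low S K hn t' ∅]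
    exact congrArg (fun q => mk1 S K n q ∅) e
  lab_eq n hn t := by
    change G.lab n t.q = if t.o = none then accLab S K t.X n t.q else G.lab n t.q
    rw [if_pos (t.ho (by omega)), accLab_low S K _ n (by omega)]
  trans p s n hn t := by
    change (s.f n (lft S K n t.q (St S K p s n t.q))).q = (s.f n t).q
    rw [lft_low S K p s hn.le _ ∅, up_low S K hn.le t]

end

theorem unravel_open {G : Game} {S : Set (Play G)} (hS : Opn S) (k : ℕ) :
    ∃ G', ∃ C : Cover k G' G, Dec (C.toMor.play ⁻¹' S) :=
  ⟨unr S (2 * k), (unrCover S (2 * k) (by simp [mv])).weaken (by omega), unr_dec S (2 * k) hS⟩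

end Pool.Agent.Lib.Common.BorelDet
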