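import Pool.Agent.Lib.Common.BorelDet.Limit
import Pool.Agent.Lib.Common.BorelDet.Unravel

set_option autoImplicit false

namespace Pool.Agent.Lib.Common.BorelDet

/-- `S` can be unravelled after any pull-back. -/
def Unr {B : Game} (S : Set (Play B)) : Prop :=
  ∀ (G : Game) (ρ : Mor G B) (k : ℕ), ∃ G', ∃ C : Cover k G' G,
    Dec (C.toMor.play ⁻¹' (ρ.play ⁻¹' S))

theorem Unr.of_opn {B : Game} {S : Set (Play B)} (h : Opn S) : Unr S :=
  fun _ ρ k => unravel_open (h.pull ρ) k

theorem Unr.compl {B : Game} {S : Set (Play B)} (h : Unr S) : Unr Sᶜ := fun G ρ k => by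
  obtain ⟨G', C, hC⟩ := h G ρ k
  exact ⟨G', C, hC.compl⟩

theorem Unr.iUnion {B : Game} {S : ℕ → Set (Play B)} (h : ∀ i, Unr (S i)) : Unr (⋃ i, S i) := by
  intro G ρ k
  choose G' C hC using h
  let T : ℕ → Σ H : Game, Mor H B := fun i => Nat.rec ⟨G, ρ⟩
    (fun i t => ⟨G' i t.1 t.2 (k + i), t.2.comp (C i t.1 t.2 (k + i)).toMor⟩) i
  let D : ∀ i, Cover (k + i) (T (i + 1)).1 (T i).1 := fun i => C i (T i).1 (T i).2 (k + i)
  have hT : ∀ i y, (T (i + 1)).2.play y = (T i).2.play ((D i).toMor.play y) := fun _ _ => rfl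
  have hD : ∀ i, Dec ((T (i + 1)).2.play ⁻¹' S i) := fun i => hC i (T i).1 (T i).2 (k + i)
  have e : ∀ i y, (T i).2.play ((limMor (G := fun i => (T i).1) D i).play y) =
      (T 0).2.play ((limMor (G := fun i => (T i).1) D 0).play y) := by
    intro i y
    induction i with
    | zero => rfl
    | succ i ih => rw [hT, limMor_succ (G := fun i => (T i).1) D, ih]
  have ho : Opn ((limCover (G := fun i => (T i).1) D).toMor.play ⁻¹'
      ((T 0).2.play ⁻¹' ⋃ i, S i)) := by
    intro y hy hu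
    obtain ⟨i, hi⟩ := Set.mem_iUnion.1 hy
    obtain ⟨n, hn⟩ := ((hD i).pull (limMor (G := fun i => (T i).1) D (i + 1))).opn y (by
      change (T (i + 1)).2.play ((limMor (G := fun i => (T i).1) D (i + 1)).play y) ∈ S i
      rw [e (i + 1) y]; exact hi) hu
    refine ⟨n, fun y' hu' e' => Set.mem_iUnion.2 ⟨i, ?_⟩⟩
    have := hn y' hu' e'
    change (T (i + 1)).2.play ((limMor (G := fun i => (T i).1) D (i + 1)).play y') ∈ S i at this
    rw [e (i + 1) y'] at this
    exact this
  obtain ⟨G'', C', h'⟩ := unravel_open ho k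
  exact ⟨G'', (limCover (G := fun i => (T i).1) D).comp C', h'⟩

theorem Unr.det {B : Game} {S : Set (Play B)} (h : Unr S) :
    ∃ p, ∃ s : Strat B, ∀ y, Cons p s y → W S p y := by
  obtain ⟨G', C, hC⟩ := h B (Mor.id B) 0
  obtain ⟨p, s, hs⟩ := hC.det
  exact ⟨p, C.phi p s, C.win hs⟩

/-- The full game on a set of moves. -/
noncomputable def base (A : Type) [Nonempty A] : Game where
  P n := Fin n → A
  par _ q := Fin.init q
  root := Fin.elim0
  root_eq _ := funext fun i => i.elim0
  ch _ q := Fin.snoc q (Classical.arbitrary A)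
  par_ch _ _ := Fin.init_snoc _ _
  lab _ _ := none
  lab_mono _ _ _ h := by simp at h

variable {A : Type} [Nonempty A]

def toSeq (y : Play (base A)) (n : ℕ) : A := y.x (n + 1) (Fin.last n)

def ofSeq (a : ℕ → A) : Play (base A) := ⟨fun _ i => a i, fun _ => rfl⟩

theorem toSeq_ofSeq (a : ℕ → A) : toSeq (ofSeq a) = a := rfl

theorem toSeq_eq (y y' : Play (base A)) {n : ℕ} (h : y'.x n = y.x n) {i : ℕ} (hi : i < n) :
    toSeq y' i = toSeq y i := by
  unfold toSeq
  rw [Play.agree_below y' y (m := i + 1) hi h]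

/-- **Borel determinacy** (Martin) for games on an arbitrary set of moves. -/
theorem borel_determinacy [TopologicalSpace A] [DiscreteTopology A] [MeasurableSpace (ℕ → A)]
    [BorelSpace (ℕ → A)] {S : Set (ℕ → A)} (hS : MeasurableSet S) :
    (∃ σ : ∀ n, (Fin n → A) → A, ∀ a : ℕ → A,
      (∀ n, n % 2 = 0 → a n = σ n fun i => a i) → a ∈ S) ∨
    (∃ τ : ∀ n, (Fin n → A) → A, ∀ a : ℕ → A,
      (∀ n, n % 2 = 1 → a n = τ n fun i => a i) → a ∉ S) := by
  have h : Unr (toSeq ⁻¹' S) := by
    induction S, hS using MeasurableSet.induction_on_open with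
    | isOpen U hU =>
      refine Unr.of_opn fun y hy _ => ?_
      obtain ⟨I, u, h1, h2⟩ := isOpen_pi_iff.1 hU _ hy
      refine ⟨I.sup id + 1, fun y' _ e => h2 fun i hi => ?_⟩
      rw [toSeq_eq y y' e (i := i) (Nat.lt_succ_of_le (Finset.le_sup (f := id) hi))]
      exact (h1 i hi).2
    | compl t _ ih => exact ih.compl
    | iUnion f _ _ ih => rw [Set.preimage_iUnion]; exact Unr.iUnion ih
  obtain ⟨p, s, hs⟩ := h.det
  have key : ∀ a : ℕ → A, (∀ n, mv n = p → a n = s.f n (fun i => a i) (Fin.last n)) →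
      (a ∈ S ↔ p = false) := by
    intro a ha
    rcases hs (ofSeq a) (fun n hn => by
      change (fun i : Fin (n + 1) => a i) = s.f n (fun i => a i)
      funext i
      refine Fin.lastCases (ha n hn) (fun j => ?_) i
      exact (congrFun (s.hf n (fun i => a i)) j).symm) with ⟨n, hn⟩ | ⟨-, hw⟩
    · simp [base] at hn
    · exact hw
  cases p with
  | false =>
    exact Or.inl ⟨fun n q => s.f n q (Fin.last n), fun a ha =>
      (key a fun n hn => ha n (by simp [mv] at hn; omega)).2 rfl⟩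
  | true =>
    exact Or.inr ⟨fun n q => s.f n q (Fin.last n), fun a ha h => by
      simpa using (key a fun n hn => ha n (by simpa [mv] using hn)).1 h⟩

end Pool.Agent.Lib.Common.BorelDet
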